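import Pool.Agent.Y745.HZ.Stm

/-! Project HZ (helper745): large parameters. -/

set_option autoImplicit false

namespace Pool.Agent.Y693.HZ.FAR

open Pool.Agent.Y745.HZ

lemma rc_low {x y : ℝ} (hx : 0 < x) (hx1 : x ≤ 1 / 10000) (hy : |y| ≤ 1) :
    (9 / 40) * (x / (x ^ 2 + y ^ 2)) ≤ rc x y := by
  have h1 : x - x ^ 3 / 6 < Real.sin x := Real.sin_gt_sub_cube hx
  have h2 : 1 - x ^ 2 / 2 ≤ Real.cos x := Real.one_sub_sq_div_two_le_cos
  have h3 : Real.sin x < x := Real.sin_lt hx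
  have hx2 : x ^ 2 ≤ 1 / 100 := by nlinarith
  have h1' : (99 / 100) * x ≤ Real.sin x := by nlinarith
  have h2' : (99 / 100 : ℝ) ≤ Real.cos x := by linarith
  have hnum : (9 / 10) * x ≤ Real.sin x * Real.cos x := by
    have := mul_le_mul h1' h2' (by norm_num) ((by positivity : (0 : ℝ) ≤ 99 / 100 * x).trans h1')
    nlinarith
  have hsin0 : 0 < Real.sin x := by linarith [show (0 : ℝ) < 99 / 100 * x by positivity]
  have hsh : |Real.sinh y| ≤ 2 * |y| := by
    have e1 := Real.abs_exp_sub_one_sub_id_le hy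
    have e2 := Real.abs_exp_sub_one_sub_id_le (x := -y) (by rw [abs_neg]; exact hy)
    have e3 : Real.sinh y = y + ((Real.exp y - 1 - y) - (Real.exp (-y) - 1 - -y)) / 2 := by
      rw [Real.sinh_eq]
      ring
    rw [e3]
    have e4 : |((Real.exp y - 1 - y) - (Real.exp (-y) - 1 - -y)) / 2| ≤ y ^ 2 := by
      rw [abs_div, abs_two, div_le_iff₀ two_pos]
      refine (abs_sub _ _).trans ?_
      rw [neg_sq] at e2
      linarith
    have e5 : y ^ 2 ≤ |y| := by
      rw [← sq_abs]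
      nlinarith [abs_nonneg y]
    refine (abs_add_le _ _).trans ?_
    linarith
  have hsh2 : Real.sinh y ^ 2 ≤ 4 * y ^ 2 := by
    have := pow_le_pow_left₀ (abs_nonneg _) hsh 2
    rw [sq_abs, mul_pow, sq_abs] at this
    linarith
  have hden : Real.sin x ^ 2 + Real.sinh y ^ 2 ≤ 4 * (x ^ 2 + y ^ 2) := by nlinarith
  have hden0 : 0 < Real.sin x ^ 2 + Real.sinh y ^ 2 := by positivity
  have hv : 0 < x ^ 2 + y ^ 2 := by positivity
  unfold rc
  rw [le_div_iff₀ hden0]
  have h4 : 9 / 40 * (x / (x ^ 2 + y ^ 2)) * (Real.sin x ^ 2 + Real.sinh y ^ 2) ≤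
      9 / 40 * (x / (x ^ 2 + y ^ 2)) * (4 * (x ^ 2 + y ^ 2)) :=
    mul_le_mul_of_nonneg_left hden (by positivity)
  have h5 : 9 / 40 * (x / (x ^ 2 + y ^ 2)) * (4 * (x ^ 2 + y ^ 2)) = (9 / 10) * x := by
    field_simp
    ring
  linarith

lemma pw {v : ℝ} (hv : 0 < v) (hv1 : v ≤ 101 / 100) :
    v ^ (-(5 / 4) : ℝ) * Real.exp (-((31 / 250) / v)) ≤ 300 := by
  have h1 : v ^ (-(5 / 4) : ℝ) ≤ 2 * v⁻¹ ^ 2 := by
    rcases le_or_gt v 1 with h | h
    · have h2 : v ^ (-(5 / 4) : ℝ) ≤ v ^ (-2 : ℝ) :=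
        Real.rpow_le_rpow_of_exponent_ge hv h (by norm_num)
      have h3 : v ^ (-2 : ℝ) = v⁻¹ ^ 2 := by
        rw [show (-2 : ℝ) = -((2 : ℕ) : ℝ) by norm_num, Real.rpow_neg hv.le, Real.rpow_natCast, inv_pow]
      rw [h3] at h2
      have : 0 ≤ v⁻¹ ^ 2 := by positivity
      linarith
    · have h2 : v ^ (-(5 / 4) : ℝ) ≤ 1 := Real.rpow_le_one_of_one_le_of_nonpos h.le (by norm_num)
      have h3 : (100 / 101 : ℝ) ≤ v⁻¹ := by
        rw [le_inv_comm₀ (by norm_num) hv]
        norm_num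
        exact hv1
      have h4 : (100 / 101 : ℝ) ^ 2 ≤ v⁻¹ ^ 2 := pow_le_pow_left₀ (by norm_num) h3 2
      have h5 : (1 / 2 : ℝ) ≤ (100 / 101 : ℝ) ^ 2 := by norm_num
      linarith
  have h5 : Real.exp (-((31 / 250) / v)) ≤ 2 / ((31 / 250) / v) ^ 2 := by
    have h6 := Real.quadratic_le_exp_of_nonneg (show (0 : ℝ) ≤ (31 / 250) / v by positivity)
    have h7 : ((31 / 250) / v) ^ 2 / 2 ≤ Real.exp ((31 / 250) / v) := by
      have : (0 : ℝ) ≤ (31 / 250) / v := by positivity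
      linarith
    have h8 : 0 < ((31 / 250) / v) ^ 2 / 2 := by positivity
    rw [Real.exp_neg]
    calc (Real.exp ((31 / 250) / v))⁻¹ ≤ (((31 / 250) / v) ^ 2 / 2)⁻¹ := inv_anti₀ h8 h7
      _ = 2 / ((31 / 250) / v) ^ 2 := by rw [inv_div]
  refine (mul_le_mul h1 h5 (Real.exp_pos _).le (by positivity)).trans ?_
  have e : 2 * v⁻¹ ^ 2 * (2 / ((31 / 250) / v) ^ 2) = 4 * (250 / 31) ^ 2 := by
    field_simp
    ring
  rw [e]
  norm_num

theorem t_FAR : P_FAR := by
  refine ⟨600 * Real.exp 1, by positivity, fun T k hT hk => ?_⟩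
  have hT0 : 0 < T := by linarith
  have hx0 : 0 < 1 / T := by positivity
  have hx1 : 1 / T ≤ 1 / 10000 := one_div_le_one_div_of_le (by norm_num) hT
  have hsh : (1 : ℝ) ≤ Real.sinh 1 ^ 2 := by
    have := Real.self_le_sinh_iff.2 (zero_le_one (α := ℝ))
    nlinarith
  have hkT : 1 ≤ k / T := by
    rw [le_div_iff₀ hT0]
    nlinarith
  have key : ∀ y : ℝ, |y| ≤ 1 → hh T k (1 / T) y ≤ 300 * Real.exp 1 * Real.exp (-(k / (10 * T))) := by
    intro y hy
    obtain ⟨v, hv⟩ : ∃ v : ℝ, v = (1 / T) ^ 2 + y ^ 2 := ⟨_, rfl⟩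
    have hv0 : 0 < v := by rw [hv]; positivity
    have hv1 : v ≤ 101 / 100 := by
      have h1 : y ^ 2 ≤ 1 := by
        rw [← sq_abs]
        nlinarith [abs_nonneg y]
      have h2 : (1 / T) ^ 2 ≤ (1 / 10000) ^ 2 := pow_le_pow_left₀ hx0.le hx1 2
      rw [hv]
      norm_num at h2 ⊢
      linarith
    have h1 := rc_low hx0 hx1 hy
    rw [← hv] at h1
    have h2 : k * ((9 / 40) * (1 / T / v)) ≤ k * rc (1 / T) y :=
      mul_le_mul_of_nonneg_left h1 (by nlinarith)
    have h3 : k * ((9 / 40) * (1 / T / v)) = (9 / 40) * (k / T) / v := by ring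
    have h4 : k / T / 10 + (31 / 250) / v ≤ (9 / 40) * (k / T) / v := by
      have h5 : k / T / 10 ≤ (101 / 1000) * (k / T) / v := by
        rw [le_div_iff₀ hv0]
        nlinarith
      have h6 : (31 / 250) / v ≤ (31 / 250) * (k / T) / v := by
        apply div_le_div_of_nonneg_right _ hv0.le
        linarith
      have h7 : (9 / 40) * (k / T) / v = (101 / 1000) * (k / T) / v + (31 / 250) * (k / T) / v := by
        ring
      rw [h7]
      exact add_le_add h5 h6
    have h8 : 1 / T * T - k * rc (1 / T) y ≤ 1 + -(k / (10 * T)) + -((31 / 250) / v) := by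
      have h9 : 1 / T * T = 1 := by field_simp
      have h10 : k / T / 10 = k / (10 * T) := by
        field_simp
      rw [h9]
      rw [h10] at h4
      linarith
    unfold hh
    rw [← hv]
    have h11 := Real.exp_le_exp.2 h8
    rw [Real.exp_add, Real.exp_add] at h11
    have h12 : 0 ≤ v ^ (-(5 / 4) : ℝ) := by positivity
    refine (mul_le_mul_of_nonneg_left h11 h12).trans ?_
    have h13 := pw hv0 hv1
    have h14 : 0 ≤ Real.exp 1 * Real.exp (-(k / (10 * T))) := by positivity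
    calc v ^ (-(5 / 4) : ℝ) * (Real.exp 1 * Real.exp (-(k / (10 * T))) * Real.exp (-((31 / 250) / v)))
        = (v ^ (-(5 / 4) : ℝ) * Real.exp (-((31 / 250) / v))) *
          (Real.exp 1 * Real.exp (-(k / (10 * T)))) := by ring
      _ ≤ 300 * (Real.exp 1 * Real.exp (-(k / (10 * T)))) := mul_le_mul_of_nonneg_right h13 h14
      _ = 300 * Real.exp 1 * Real.exp (-(k / (10 * T))) := by ring
  have hint := intervalIntegral.norm_integral_le_of_norm_le_const (a := (-1 : ℝ)) (b := 1)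
    (f := fun y => hh T k (1 / T) y) (C := 300 * Real.exp 1 * Real.exp (-(k / (10 * T)))) (by
      intro y hy
      rw [Set.uIoc_of_le (by norm_num)] at hy
      have h0 : 0 ≤ hh T k (1 / T) y := by unfold hh; positivity
      rw [Real.norm_of_nonneg h0]
      exact key y (abs_le.2 ⟨hy.1.le, hy.2⟩))
  refine (Real.le_norm_self _).trans (hint.trans (le_of_eq ?_))
  norm_num
  ring

end Pool.Agent.Y693.HZ.FAR
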