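import Pool.Agent.Y745.HZ.Stm

/-! Project HZ (helper745): a Gaussian sum. -/

set_option autoImplicit false

namespace Pool.Agent.Y693.HZ.GS

theorem t_GS : Pool.Agent.Y745.HZ.P_GS := by
  refine ⟨3 * Real.exp 2, by positivity, fun v hv hv1 => ?_⟩
  have hs : 0 < √v := Real.sqrt_pos.2 hv
  have hs1 : √v ≤ 1 := Real.sqrt_le_one.2 hv1
  have hsq : √v * √v = v := Real.mul_self_sqrt hv.le
  obtain ⟨r, hr⟩ : ∃ r : ℝ, r = Real.exp (-(2 * √v)) := ⟨_, rfl⟩
  have hr0 : 0 < r := by rw [hr]; exact Real.exp_pos _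
  have hr1 : r < 1 := by
    rw [hr, Real.exp_lt_one_iff]
    linarith
  have hrk : ∀ k : ℕ, r ^ k = Real.exp (-(2 * √v * k)) := by
    intro k
    rw [hr, ← Real.exp_nat_mul]
    congr 1
    ring
  have h1 : ∀ k : ℕ, Real.exp (-(v * (((k : ℤ) : ℝ) - 1 / 2) ^ 2)) ≤ Real.exp 2 * r ^ k := by
    intro k
    rw [hrk, ← Real.exp_add, Real.exp_le_exp]
    push_cast
    nlinarith [sq_nonneg (√v * ((k : ℝ) - 1 / 2) - 1)]
  have h2 : ∀ k : ℕ, Real.exp (-(v * (((-((k : ℤ) + 1) : ℤ) : ℝ) - 1 / 2) ^ 2)) ≤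
      Real.exp 2 * r ^ k := by
    intro k
    rw [hrk, ← Real.exp_add, Real.exp_le_exp]
    push_cast
    nlinarith [sq_nonneg (√v * ((k : ℝ) + 3 / 2) - 1)]
  have hg : HasSum (fun k : ℕ => Real.exp 2 * r ^ k) (Real.exp 2 * (1 - r)⁻¹) :=
    (hasSum_geometric_of_lt_one hr0.le hr1).mul_left _
  have s1 : Summable fun k : ℕ => Real.exp (-(v * (((k : ℤ) : ℝ) - 1 / 2) ^ 2)) :=
    Summable.of_nonneg_of_le (fun _ => (Real.exp_pos _).le) h1 hg.summable
  have s2 : Summable fun k : ℕ => Real.exp (-(v * (((-((k : ℤ) + 1) : ℤ) : ℝ) - 1 / 2) ^ 2)) :=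
    Summable.of_nonneg_of_le (fun _ => (Real.exp_pos _).le) h2 hg.summable
  have hS : Summable fun n : ℤ => Real.exp (-(v * ((n : ℝ) - 1 / 2) ^ 2)) :=
    Summable.of_nat_of_neg_add_one s1 s2
  refine ⟨hS, ?_⟩
  rw [tsum_of_nat_of_neg_add_one s1 s2]
  have t1 := s1.tsum_le_tsum h1 hg.summable
  have t2 := s2.tsum_le_tsum h2 hg.summable
  rw [hg.tsum_eq] at t1 t2
  have h3 : 2 * √v / 3 ≤ 1 - r := by
    have h4 : r * (1 + 2 * √v) ≤ 1 := by
      have h5 := Real.add_one_le_exp (2 * √v)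
      have h6 : r * Real.exp (2 * √v) = 1 := by
        rw [hr, ← Real.exp_add]
        simp
      nlinarith
    have h7 : r ≤ 1 / (1 + 2 * √v) := by
      rw [le_div_iff₀ (by positivity)]
      exact h4
    have h8 : 1 / (1 + 2 * √v) ≤ 1 - 2 * √v / 3 := by
      rw [div_le_iff₀ (by positivity)]
      nlinarith
    linarith
  have h9 : (1 - r)⁻¹ ≤ 3 / (2 * √v) := by
    rw [inv_le_comm₀ (by linarith) (by positivity), inv_div]
    exact h3
  have h10 : Real.exp 2 * (1 - r)⁻¹ ≤ Real.exp 2 * (3 / (2 * √v)) :=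
    mul_le_mul_of_nonneg_left h9 (Real.exp_pos _).le
  have e : 3 * Real.exp 2 / √v = Real.exp 2 * (3 / (2 * √v)) + Real.exp 2 * (3 / (2 * √v)) := by
    field_simp
    ring
  rw [e]
  exact add_le_add (t1.trans h10) (t2.trans h10)

end Pool.Agent.Y693.HZ.GS
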