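import Pool.Agent.Y745.HZ.Stm

/-! Project HZ (helper745): the theta function near the cusp. -/

set_option autoImplicit false

namespace Pool.Agent.Y693.HZ.TH

open Complex

lemma theta_shift (z : ℂ) : jacobiTheta₂ 0 (I * z - 1) = jacobiTheta₂ (1/2) (I * z) := by
  unfold jacobiTheta₂
  apply tsum_congr
  intro n
  unfold jacobiTheta₂_term
  obtain ⟨m, hm⟩ := Int.even_mul_succ_self n
  have h1 : (n : ℂ) * (n + 1) = m + m := by
    have : ((n * (n + 1) : ℤ) : ℂ) = ((m + m : ℤ) : ℂ) := by rw [hm]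
    push_cast at this
    exact this
  have e : 2 * (Real.pi : ℂ) * I * n * (1/2) + Real.pi * I * n ^ 2 * (I * z) =
      (2 * Real.pi * I * n * 0 + Real.pi * I * n ^ 2 * (I * z - 1)) + (m : ℂ) * (2 * Real.pi * I) := by
    linear_combination (Real.pi * I : ℂ) * h1
  rw [e, Complex.exp_periodic.int_mul]

lemma z_eq (P : ℂ) : cexp (2 * (I * (((Real.pi / 4 : ℝ) : ℂ) - P))) =
    2 * Complex.sin P * cexp (-(I * P)) + I := by
  have h1 : cexp (2 * (I * (((Real.pi / 4 : ℝ) : ℂ) - P))) = I * (cexp (-(I * P)) * cexp (-(I * P))) := by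
    rw [← Complex.exp_add]
    have : 2 * (I * (((Real.pi / 4 : ℝ) : ℂ) - P)) =
        (Real.pi / 2 : ℂ) * I + (-(I * P) + -(I * P)) := by
      push_cast; ring
    rw [this, Complex.exp_add, Complex.exp_pi_div_two_mul_I]
  have h2 : 2 * Complex.sin P = I * (cexp (-(I * P)) - cexp (I * P)) := by
    rw [Complex.sin]
    rw [mul_comm I P, neg_mul]
    ring
  have h3 : cexp (I * P) * cexp (-(I * P)) = 1 := by rw [← Complex.exp_add]; simp
  rw [h1, h2]
  linear_combination I * h3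

lemma inv_z {P : ℂ} (h0 : Complex.sin P ≠ 0) :
    1 / (2 * Complex.sin P * cexp (-(I * P))) = (Complex.cos P / Complex.sin P + I) / 2 := by
  have h1 : cexp (-(I * P)) ≠ 0 := Complex.exp_ne_zero _
  have h3 : cexp (I * P) * cexp (-(I * P)) = 1 := by rw [← Complex.exp_add]; simp
  have h4 : cexp (I * P) = Complex.cos P + Complex.sin P * I := by
    rw [mul_comm, Complex.exp_mul_I]
  rw [h4] at h3
  have hne : 2 * Complex.sin P * cexp (-(I * P)) ≠ 0 :=
    mul_ne_zero (mul_ne_zero two_ne_zero h0) h1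
  rw [div_eq_div_iff hne two_ne_zero]
  field_simp
  linear_combination (-1) * h3

lemma sin_re {P : ℂ} (h0 : 0 < P.re) (h1 : P.re < Real.pi / 2) : 0 < (Complex.sin P).re := by
  have e : (Complex.sin P).re = Real.sin P.re * Real.cosh P.im := by
    have h := Complex.sin_eq P
    rw [h]
    simp [Complex.sin_ofReal_re, Complex.cosh_ofReal_re]
  rw [e]
  exact mul_pos (Real.sin_pos_of_pos_of_lt_pi h0 (by linarith [Real.pi_pos])) (Real.cosh_pos _)

lemma z_re {P : ℂ} (h0 : 0 < P.re) (h1 : P.re < Real.pi / 2) :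
    0 < (2 * Complex.sin P * cexp (-(I * P))).re := by
  have h := z_eq P
  have h2 : cexp (2 * (I * (((Real.pi / 4 : ℝ) : ℂ) - P))) = I * cexp (-(2 * I * P)) := by
    have : 2 * (I * (((Real.pi / 4 : ℝ) : ℂ) - P)) = (Real.pi / 2 : ℂ) * I + -(2 * I * P) := by
      push_cast; ring
    rw [this, Complex.exp_add, Complex.exp_pi_div_two_mul_I]
  have h3 : 2 * Complex.sin P * cexp (-(I * P)) = I * cexp (-(2 * I * P)) - I := by
    rw [← h2, h]; ring
  rw [h3]
  have h4 : (I * cexp (-(2 * I * P)) - I).re = Real.exp (2 * P.im) * Real.sin (2 * P.re) := by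
    rw [Complex.sub_re, Complex.I_mul_re, Complex.I_re, Complex.exp_im]
    have e1 : (-(2 * I * P)).re = 2 * P.im := by simp
    have e2 : (-(2 * I * P)).im = -(2 * P.re) := by simp
    rw [e1, e2, Real.sin_neg]
    ring
  rw [h4]
  exact mul_pos (Real.exp_pos _) (Real.sin_pos_of_pos_of_lt_pi (by linarith) (by linarith))

lemma cpow_z {P : ℂ} (h0 : 0 < P.re) (h1 : P.re < Real.pi / 2) :
    (2 * Complex.sin P * cexp (-(I * P))) ^ (1/2 : ℂ) =
      (2 * Complex.sin P) ^ (1/2 : ℂ) * cexp (-(I * P / 2)) := by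
  have hs := sin_re h0 h1
  have hs2 : 0 < (2 * Complex.sin P).re := by
    simp
    exact hs
  have hs0 : 2 * Complex.sin P ≠ 0 := by
    intro h
    rw [h] at hs2
    simp at hs2
  have him : (-(I * P)).im = -P.re := by simp
  have hlog : Complex.log (cexp (-(I * P))) = -(I * P) :=
    Complex.log_exp (by rw [him]; linarith [Real.pi_pos]) (by rw [him]; linarith [Real.pi_pos])
  have harg : (cexp (-(I * P))).arg = -P.re := by
    have h2 := congrArg Complex.im hlog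
    rw [Complex.log_im, him] at h2
    exact h2
  have harg2 : |(2 * Complex.sin P).arg| < Real.pi / 2 :=
    Complex.abs_arg_lt_pi_div_two_iff.2 (Or.inl hs2)
  have h3 := abs_lt.1 harg2
  have hmul : Complex.log (2 * Complex.sin P * cexp (-(I * P))) =
      Complex.log (2 * Complex.sin P) + Complex.log (cexp (-(I * P))) := by
    refine (Complex.log_mul_eq_add_log_iff hs0 (Complex.exp_ne_zero _)).2 ⟨?_, ?_⟩
    · rw [harg]
      linarith [h3.1]
    · rw [harg]
      linarith [h3.2]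
  rw [Complex.cpow_def_of_ne_zero (mul_ne_zero hs0 (Complex.exp_ne_zero _)), hmul, hlog, add_mul,
    Complex.exp_add, Complex.cpow_def_of_ne_zero hs0]
  congr 1
  congr 1
  ring

theorem t_TH : Pool.Agent.Y745.HZ.P_TH := by
  refine ⟨fun n => cexp (((Real.pi / 8 - Real.pi / 2 * ((n : ℝ) - 1 / 2) ^ 2 : ℝ) : ℂ) * I),
    fun n => Complex.norm_exp_ofReal_mul_I _, fun P h0 h1 => ?_⟩
  have hs := sin_re h0 h1
  have hs0 : Complex.sin P ≠ 0 := by
    intro h
    rw [h] at hs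
    simp at hs
  obtain ⟨c, hc⟩ : ∃ c : ℂ, c = Complex.cos P / Complex.sin P := ⟨_, rfl⟩
  obtain ⟨z, hz⟩ : ∃ z : ℂ, z = 2 * Complex.sin P * cexp (-(I * P)) := ⟨_, rfl⟩
  have hzre : 0 < z.re := by rw [hz]; exact z_re h0 h1
  have hz0 : z ≠ 0 := by
    intro h
    rw [h] at hzre
    simp at hzre
  have hinv : 1 / z = (c + I) / 2 := by rw [hz, hc]; exact inv_z hs0
  have e1 : I * cexp (2 * (I * (((Real.pi / 4 : ℝ) : ℂ) - P))) = I * z - 1 := by
    rw [z_eq P, mul_add, I_mul_I, ← hz]; ring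
  rw [e1, theta_shift, jacobiTheta₂_functional_equation]
  have e2 : -I * (I * z) = z := by rw [← mul_assoc, neg_mul, I_mul_I]; ring
  rw [e2]
  have hcp : z ^ (1/2 : ℂ) = (2 * Complex.sin P) ^ (1/2 : ℂ) * cexp (-(I * P / 2)) := by
    rw [hz]
    exact cpow_z h0 h1
  rw [hcp]
  -- the transformed series
  have him : 0 < (-1 / (I * z)).im := by
    have h2 : -1 / (I * z) = I * z⁻¹ := by
      field_simp
      rw [I_sq]
    rw [h2, Complex.I_mul_im, Complex.inv_re]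
    exact div_pos hzre (Complex.normSq_pos.2 hz0)
  have hS := (hasSum_jacobiTheta₂_term ((1/2) / (I * z)) him).mul_left (cexp (-Real.pi * I * (1/2) ^ 2 / (I * z)))
  have hterm : ∀ n : ℤ, cexp (-Real.pi * I * (1/2) ^ 2 / (I * z)) * jacobiTheta₂_term n ((1/2) / (I * z)) (-1 / (I * z)) =
      cexp (-(Real.pi / 2) * ((n : ℂ) - 1 / 2) ^ 2 * (c + I)) := by
    intro n
    unfold jacobiTheta₂_term
    rw [← Complex.exp_add]
    congr 1
    have a1 : (c + I) = 2 * (1 / z) := by rw [hinv]; ring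
    rw [a1]
    field_simp
    ring
  simp_rw [hterm] at hS
  have hS2 := hS.mul_left (cexp (I * (((Real.pi / 4 : ℝ) : ℂ) - P) / 2) *
    (1 / ((2 * Complex.sin P) ^ (1/2 : ℂ) * cexp (-(I * P / 2)))))
  have hcp0 : (2 * Complex.sin P) ^ (1/2 : ℂ) ≠ 0 := by
    rw [Ne, Complex.cpow_eq_zero_iff]
    rintro ⟨h, -⟩
    exact (mul_ne_zero two_ne_zero hs0) h
  have e3 : cexp (I * (((Real.pi / 4 : ℝ) : ℂ) - P) / 2) =
      cexp ((Real.pi / 8 : ℂ) * I) * cexp (-(I * P / 2)) := by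
    rw [← Complex.exp_add]
    congr 1
    push_cast
    ring
  have e4 : cexp (I * (((Real.pi / 4 : ℝ) : ℂ) - P) / 2) *
    (1 / ((2 * Complex.sin P) ^ (1/2 : ℂ) * cexp (-(I * P / 2)))) =
      cexp ((Real.pi / 8 : ℂ) * I) * (2 * Complex.sin P) ^ (-(1/2) : ℂ) := by
    rw [e3, Complex.cpow_neg]
    have : cexp (-(I * P / 2)) ≠ 0 := Complex.exp_ne_zero _
    field_simp
  have e5 : ∀ A B : ℂ, cexp (I * (((Real.pi / 4 : ℝ) : ℂ) - P) / 2) *
      (1 / ((2 * Complex.sin P) ^ (1/2 : ℂ) * cexp (-(I * P / 2))) * A * B) =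
      cexp (I * (((Real.pi / 4 : ℝ) : ℂ) - P) / 2) *
        (1 / ((2 * Complex.sin P) ^ (1/2 : ℂ) * cexp (-(I * P / 2)))) * (A * B) := by
    intro A B
    ring
  rw [e5]
  have hfun : (fun n : ℤ => cexp (((Real.pi / 8 - Real.pi / 2 * ((n : ℝ) - 1 / 2) ^ 2 : ℝ) : ℂ) * I) *
      ((2 * Complex.sin P) ^ (-(1 / 2) : ℂ) *
      cexp (-(((Real.pi / 2 * ((n : ℝ) - 1 / 2) ^ 2 : ℝ)) : ℂ) * (Complex.cos P / Complex.sin P)))) =
      fun n : ℤ => cexp (I * (((Real.pi / 4 : ℝ) : ℂ) - P) / 2) *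
        (1 / ((2 * Complex.sin P) ^ (1/2 : ℂ) * cexp (-(I * P / 2)))) *
        cexp (-(Real.pi / 2) * ((n : ℂ) - 1 / 2) ^ 2 * (c + I)) := by
    funext n
    rw [e4, ← hc]
    have h6 : cexp (-(Real.pi / 2) * ((n : ℂ) - 1 / 2) ^ 2 * (c + I)) =
        cexp (-(Real.pi / 2) * ((n : ℂ) - 1 / 2) ^ 2 * I) *
          cexp (-(((Real.pi / 2 * ((n : ℝ) - 1 / 2) ^ 2 : ℝ)) : ℂ) * c) := by
      rw [← Complex.exp_add]
      congr 1
      push_cast
      ring
    have h7 : cexp (((Real.pi / 8 - Real.pi / 2 * ((n : ℝ) - 1 / 2) ^ 2 : ℝ) : ℂ) * I) =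
        cexp ((Real.pi / 8 : ℂ) * I) * cexp (-(Real.pi / 2) * ((n : ℂ) - 1 / 2) ^ 2 * I) := by
      rw [← Complex.exp_add]
      congr 1
      push_cast
      ring
    rw [h6, h7]
    ring
  rw [hfun]
  exact hS2

end Pool.Agent.Y693.HZ.TH
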